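import Pool.Agent.Helper88.CR.GoalsA

/-! # Packet LO: lower bound for the L series with at most one exceptional character -/

set_option autoImplicit false

open Finset Filter Topology

namespace Pool.Agent.Helper47.CR

open Pool.Agent.Helper88.CR

theorem norm_ch_le (z : ℕ) {q : ℕ} (χ : DirichletCharacter ℂ q) (n : ℕ) : ‖ch z χ n‖ ≤ 1 := by
  unfold ch
  split_ifs
  · exact DirichletCharacter.norm_le_one χ _
  · simp

theorem gj_zero (a : ℕ → ℂ) : gj a 0 = a := by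
  funext n
  simp [gj]

theorem hasDeriv (z : ℕ) {q : ℕ} (χ : DirichletCharacter ℂ q) {s : ℂ} (hs : 1 < s.re) :
    HasDerivAt (fun s => LL (ch z χ) 0 s) (-LL (ch z χ) 1 s) s := by
  have h1 : LSeries.abscissaOfAbsConv (gj (ch z χ) 0) < s.re := by
    rw [gj_zero]
    refine lt_of_le_of_lt (LSeries.abscissaOfAbsConv_le_of_le_const
      ⟨1, fun n _ => norm_ch_le z χ n⟩) ?_
    exact_mod_cast hs
  have h2 := LSeries_hasDerivAt h1
  have h3 : LSeries (LSeries.logMul (gj (ch z χ) 0)) s = LL (ch z χ) 1 s := by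
    unfold LL
    refine LSeries_congr ?_ s
    intro n hn
    unfold LSeries.logMul
    rw [gj_zero]
    unfold gj
    simp only [pow_one, Nat.factorial_one, Nat.cast_one, div_one]
    rw [Complex.natCast_log, mul_comm]
  rw [h3] at h2
  exact h2

/-- The convex region. -/
def Om (z : ℕ) : Set ℂ := {s | 1 < s.re ∧ s.re ≤ 2 ∧ |s.im| ≤ (z : ℝ) ^ (1 / 16 : ℝ)}

theorem convex_Om (z : ℕ) : Convex ℝ (Om z) := by
  intro s hs t ht a b ha hb hab
  obtain ⟨h1, h2, h3⟩ := hs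
  obtain ⟨g1, g2, g3⟩ := ht
  have hre : (a • s + b • t).re = a * s.re + b * t.re := by simp
  have him : (a • s + b • t).im = a * s.im + b * t.im := by simp
  refine ⟨?_, ?_, ?_⟩
  · rw [hre]
    rcases ha.lt_or_eq with h | h
    · nlinarith only [hab, hb, g1, h1, h]
    · rw [← h] at hab ⊢
      have : b = 1 := by linarith
      rw [this]; linarith
  · rw [hre]; nlinarith only [hab, ha, h2, hb, g2]
  · rw [him]
    rw [abs_le] at h3 g3 ⊢
    constructor <;> nlinarith only [ha, h3, hb, g3, hab, h3.1, h3.2, g3.1, g3.2]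

theorem mvt (z : ℕ) {q : ℕ} (χ : DirichletCharacter ℂ q) {B : ℝ}
    (hB : ∀ s ∈ Om z, ‖LL (ch z χ) 1 s‖ ≤ B) {s t : ℂ} (hs : s ∈ Om z) (ht : t ∈ Om z) :
    ‖LL (ch z χ) 0 t‖ - B * ‖s - t‖ ≤ ‖LL (ch z χ) 0 s‖ := by
  have h := (convex_Om z).norm_image_sub_le_of_norm_hasDerivWithin_le
    (f := fun s => LL (ch z χ) 0 s) (f' := fun s => -LL (ch z χ) 1 s) (C := B)
    (fun x hx => (hasDeriv z χ hx.1).hasDerivWithinAt) (fun x hx => by
      rw [norm_neg]; exact hB x hx) hs ht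
  have h2 : ‖LL (ch z χ) 0 t‖ ≤ ‖LL (ch z χ) 0 t - LL (ch z χ) 0 s‖ + ‖LL (ch z χ) 0 s‖ := by
    have := norm_add_le (LL (ch z χ) 0 t - LL (ch z χ) 0 s) (LL (ch z χ) 0 s)
    rwa [sub_add_cancel] at this
  rw [norm_sub_rev t s] at h
  linarith

theorem ch_one {z q : ℕ} [NeZero q] (hq : q ≤ z) :
    ch z (1 : DirichletCharacter ℂ q) = ci z 1 0 := by
  funext n
  unfold ch ci
  by_cases h : rg z n
  · rw [if_pos h, if_pos ⟨Nat.modEq_one, h⟩]
    have hc : Nat.Coprime n q := by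
      rw [Nat.coprime_iff_gcd_eq_one]
      by_contra hne
      obtain ⟨p, hp, hpd⟩ := Nat.exists_prime_and_dvd hne
      have h1 := h.2 p hp (hpd.trans (Nat.gcd_dvd_left _ _))
      have h2 := Nat.le_of_dvd (Nat.pos_of_ne_zero (NeZero.ne q))
        (hpd.trans (Nat.gcd_dvd_right _ _))
      omega
    have hu : IsUnit (n : ZMod q) := (ZMod.isUnit_iff_coprime n q).2 hc
    exact MulChar.one_apply hu
  · rw [if_neg h, if_neg (fun h' => h h'.2)]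

theorem one_add_ofReal (y : ℝ) : (1 + (y : ℂ)) = ⟨1 + y, 0⟩ := by
  apply Complex.ext <;> simp

theorem one_add_ofReal' (y t : ℝ) : (1 + (y : ℂ) + Complex.I * (t : ℂ)) = ⟨1 + y, t⟩ := by
  apply Complex.ext <;> simp

theorem one_add_ofReal'' (y t : ℝ) :
    (1 + (y : ℂ) + 2 * Complex.I * (t : ℂ)) = ⟨1 + y, 2 * t⟩ := by
  apply Complex.ext <;> simp

/-- Region (R). -/
theorem two_real {z q : ℕ} [NeZero q] (h4 : StmtP2) (hqz : q ≤ z) {K r l : ℝ} (hK : 1 ≤ K)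
    (hr : 0 < r) (hr1 : r ≤ 1) (hl : 1 ≤ l)
    (hZ : ‖LL (ci z 1 0) 0 (1 + ((r ^ 2 / l : ℝ) : ℂ))‖ ≤ K * (1 + 1 / (l * ‖(1 + ((r ^ 2 / l : ℝ) : ℂ)) - 1‖)))
    (hL0 : ∀ χ : DirichletCharacter ℂ q, χ ≠ 1 →
      ‖LL (ch z χ) 0 (1 + ((r ^ 2 / l : ℝ) : ℂ))‖ ≤ 2 * K)
    (χ ψ : DirichletCharacter ℂ q) (hχ : χ ^ 2 = 1) (hψ : ψ ^ 2 = 1) (hne : χ ≠ ψ)
    (h1 : ‖LL (ch z χ) 0 (1 + ((r ^ 2 / l : ℝ) : ℂ))‖ < r / (2 * K))
    (h2 : ‖LL (ch z ψ) 0 (1 + ((r ^ 2 / l : ℝ) : ℂ))‖ < r / (2 * K)) : False := by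
  have hl0 : 0 < l := by linarith
  have hx : 0 < r ^ 2 / l := by positivity
  have hprod : χ * ψ ≠ 1 := by
    intro h
    apply hne
    have h3 : χ * ψ * ψ = ψ := by rw [h, one_mul]
    rw [mul_assoc, ← pow_two, hψ, mul_one] at h3
    exact h3
  have h5 := h4 z q hqz χ ψ (r ^ 2 / l) hχ hψ hx
  have h6 := hL0 _ hprod
  have h7 : ‖LL (ci z 1 0) 0 (1 + ((r ^ 2 / l : ℝ) : ℂ))‖ ≤ 2 * K / r ^ 2 := by
    refine hZ.trans ?_
    rw [add_sub_cancel_left, Complex.norm_real, Real.norm_eq_abs, abs_of_pos hx,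
      mul_div_cancel₀ _ hl0.ne']
    have : 1 ≤ 1 / r ^ 2 := by
      rw [le_div_iff₀ (by positivity), one_mul]
      nlinarith only [hr1, hr]
    calc K * (1 + 1 / r ^ 2) ≤ K * (1 / r ^ 2 + 1 / r ^ 2) := by
          apply mul_le_mul_of_nonneg_left _ (by linarith only [hK])
          linarith only [this]
      _ = 2 * K / r ^ 2 := by ring
  have h8 : ‖LL (ch z χ) 0 (1 + ((r ^ 2 / l : ℝ) : ℂ))‖ *
      ‖LL (ch z ψ) 0 (1 + ((r ^ 2 / l : ℝ) : ℂ))‖ < (r / (2 * K)) * (r / (2 * K)) :=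
    mul_lt_mul'' h1 h2 (norm_nonneg _) (norm_nonneg _)
  have h9 : ‖LL (ci z 1 0) 0 (1 + ((r ^ 2 / l : ℝ) : ℂ))‖ *
      ‖LL (ch z χ) 0 (1 + ((r ^ 2 / l : ℝ) : ℂ))‖ *
      ‖LL (ch z ψ) 0 (1 + ((r ^ 2 / l : ℝ) : ℂ))‖ *
      ‖LL (ch z (χ * ψ)) 0 (1 + ((r ^ 2 / l : ℝ) : ℂ))‖ ≤
      (2 * K / r ^ 2) * (‖LL (ch z χ) 0 (1 + ((r ^ 2 / l : ℝ) : ℂ))‖ *
      ‖LL (ch z ψ) 0 (1 + ((r ^ 2 / l : ℝ) : ℂ))‖) * (2 * K) := by
    rw [mul_assoc (‖LL (ci z 1 0) 0 _‖)]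
    gcongr
  have h10 : (2 * K / r ^ 2) * (‖LL (ch z χ) 0 (1 + ((r ^ 2 / l : ℝ) : ℂ))‖ *
      ‖LL (ch z ψ) 0 (1 + ((r ^ 2 / l : ℝ) : ℂ))‖) * (2 * K) <
      (2 * K / r ^ 2) * ((r / (2 * K)) * (r / (2 * K))) * (2 * K) := by
    gcongr
  have h11 : (2 * K / r ^ 2) * ((r / (2 * K)) * (r / (2 * K))) * (2 * K) = 1 := by
    field_simp
  linarith only [h5, h9, h10, h11]

theorem algC {K r c X A B : ℝ} (hK : 0 < K) (hr : 0 < r) (hc : 0 < c) (hX : 0 ≤ X)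
    (hcdef : c = r ^ 2 / (256 * K ^ 12)) (hA0 : 0 ≤ A) (hB0 : 0 ≤ B) (hA : A ≤ 2 * K / c)
    (hB : B ≤ 2 * K / r ^ 2) (h : 1 ≤ A ^ 3 * X ^ 4 * B) : 2 * K ^ 2 * c ≤ X := by
  have h6 : 1 ≤ (2 * K / c) ^ 3 * X ^ 4 * (2 * K / r ^ 2) := by
    refine h.trans ?_
    gcongr
  have e3 : (2 * K / c) ^ 3 * X ^ 4 * (2 * K / r ^ 2) =
      X ^ 4 * (16 * K ^ 4 / (c ^ 3 * r ^ 2)) := by
    field_simp
    ring
  have e4 : r ^ 2 = 256 * K ^ 12 * c := by
    rw [hcdef, mul_div_cancel₀ _ (by positivity)]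
  have e5 : 16 * K ^ 4 / (c ^ 3 * r ^ 2) = 1 / (16 * K ^ 8 * c ^ 4) := by
    rw [e4, div_eq_div_iff (by positivity) (by positivity)]
    ring
  rw [e3, e5, mul_one_div, le_div_iff₀ (by positivity), one_mul] at h6
  have h7 : (2 * K ^ 2 * c) ^ 4 ≤ X ^ 4 := by
    calc (2 * K ^ 2 * c) ^ 4 = 16 * K ^ 8 * c ^ 4 := by ring
      _ ≤ X ^ 4 := h6
  exact le_of_pow_le_pow_left₀ (by norm_num) hX h7

set_option maxHeartbeats 4000000 in
theorem lo (h1 : StmtCH) (h2 : StmtZB) (h3 : StmtP4) (h4 : StmtP2) : StmtLO := by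
  classical
  obtain ⟨K1, hK1, hCH⟩ := h1
  obtain ⟨K2, hK2, hZB⟩ := h2
  set K := max K1 K2 with hKdef
  have hKK1 : K1 ≤ K := le_max_left _ _
  have hKK2 : K2 ≤ K := le_max_right _ _
  have hK : 1 ≤ K := hK1.trans hKK1
  have hK0 : 0 < K := by linarith
  set r : ℝ := 1 / (8 * K ^ 3) with hrdef
  have hr : 0 < r := by positivity
  have hr1 : r ≤ 1 := by
    rw [hrdef, div_le_one (by positivity)]
    have : 1 ≤ K ^ 3 := one_le_pow₀ hK
    linarith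
  set c : ℝ := r ^ 2 / (256 * K ^ 12) with hcdef
  have hc : 0 < c := by positivity
  have hcr : c ≤ r ^ 2 := by
    rw [hcdef]
    refine div_le_self (by positivity) ?_
    have : 1 ≤ K ^ 12 := one_le_pow₀ hK
    linarith only [this]
  have hr2 : r ^ 2 ≤ 1 := pow_le_one₀ hr.le hr1
  have hc1 : c ≤ 1 := hcr.trans hr2
  refine ⟨c, hc, hc1, 2 ^ 32, ?_⟩
  intro z q _ hz hqz
  have hz' : (2 : ℝ) ^ 32 ≤ z := by exact_mod_cast hz
  have hz0 : (0 : ℝ) < z := lt_of_lt_of_le (by positivity) hz'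
  have hz16 : 16 ≤ z := le_trans (by norm_num) hz
  have hqz1 : q ≤ z := le_trans (Nat.le_self_pow (by norm_num) q) hqz
  set l := Real.log z with hl
  have hl1 : 1 ≤ l := by
    rw [hl, Real.le_log_iff_exp_le hz0]
    have := Real.exp_one_lt_d9
    linarith only [hz', this]
  have hl0 : 0 < l := by linarith only [hl1]
  have hz32 : (2 : ℝ) ≤ (z : ℝ) ^ (1 / 32 : ℝ) := by
    have : (2 : ℝ) = ((2 : ℝ) ^ 32) ^ (1 / 32 : ℝ) := by
      rw [← Real.rpow_natCast, ← Real.rpow_mul (by norm_num)]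
      norm_num
    rw [this]
    exact Real.rpow_le_rpow (by positivity) hz' (by norm_num)
  have hzsq : (z : ℝ) ^ (1 / 16 : ℝ) = (z : ℝ) ^ (1 / 32 : ℝ) * (z : ℝ) ^ (1 / 32 : ℝ) := by
    rw [← Real.rpow_add hz0]
    norm_num
  have hz3216 : 2 * (z : ℝ) ^ (1 / 32 : ℝ) ≤ (z : ℝ) ^ (1 / 16 : ℝ) := by
    rw [hzsq]
    nlinarith only [hz32]
  have hz32pos : 0 < (z : ℝ) ^ (1 / 32 : ℝ) := by linarith only [hz32]
  -- bounds
  have hL0 : ∀ χ : DirichletCharacter ℂ q, χ ≠ 1 → ∀ s ∈ Om z, ‖LL (ch z χ) 0 s‖ ≤ 2 * K := by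
    intro χ hχ s hs
    have h := (hCH z q hz16 hqz s 0 hs.1 hs.2.1 hs.2.2).1 χ hχ
    rw [if_pos rfl, pow_zero, mul_one] at h
    have h5 := norm_add_le (LL (ch z χ) 0 s - 1) 1
    rw [sub_add_cancel, norm_one] at h5
    linarith only [hK1, hKK1, h, h5]
  have hL1 : ∀ χ : DirichletCharacter ℂ q, χ ≠ 1 → ∀ s ∈ Om z,
      ‖LL (ch z χ) 1 s‖ ≤ K ^ 2 * l := by
    intro χ hχ s hs
    have h := (hCH z q hz16 hqz s 1 hs.1 hs.2.1 hs.2.2).1 χ hχ
    rw [if_neg one_ne_zero, sub_zero, pow_one] at h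
    calc _ ≤ _ := h
      _ = K1 ^ 2 * l := by rw [hl]; ring
      _ ≤ K ^ 2 * l := by gcongr
  have hZ : ∀ s ∈ Om z, ‖LL (ci z 1 0) 0 s‖ ≤ K * (1 + 1 / (l * ‖s - 1‖)) := by
    intro s hs
    refine (hZB z hz16 s hs.1 hs.2.1 hs.2.2).trans ?_
    rw [← hl]
    gcongr
  have hOm : ∀ x t : ℝ, 0 < x → x ≤ 1 / l → |t| ≤ 2 * (z : ℝ) ^ (1 / 32 : ℝ) →
      (⟨1 + x, t⟩ : ℂ) ∈ Om z := by
    intro x t hx hx1 ht
    refine ⟨?_, ?_, ?_⟩
    · change 1 < 1 + x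
      linarith only [hx]
    · change 1 + x ≤ 2
      have : 1 / l ≤ 1 := by rw [div_le_one hl0]; exact hl1
      linarith only [hx1, this]
    · exact ht.trans hz3216
  have hrl : r ^ 2 / l ≤ 1 / l := by gcongr
  have hσ : (1 + ((r ^ 2 / l : ℝ) : ℂ)) = ⟨1 + r ^ 2 / l, 0⟩ := one_add_ofReal _
  have hσΩ : (1 + ((r ^ 2 / l : ℝ) : ℂ)) ∈ Om z := by
    rw [hσ]
    exact hOm _ _ (by positivity) hrl (by rw [abs_zero]; positivity)
  -- the exceptional character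
  obtain ⟨χ₁, hχ₁⟩ : ∃ χ₁ : DirichletCharacter ℂ q, ∀ χ : DirichletCharacter ℂ q, χ ≠ 1 →
      χ ≠ χ₁ → χ ^ 2 = 1 → r / (2 * K) ≤ ‖LL (ch z χ) 0 (1 + ((r ^ 2 / l : ℝ) : ℂ))‖ := by
    by_cases hex : ∃ χ : DirichletCharacter ℂ q, χ ≠ 1 ∧ χ ^ 2 = 1 ∧
        ‖LL (ch z χ) 0 (1 + ((r ^ 2 / l : ℝ) : ℂ))‖ < r / (2 * K)
    · obtain ⟨χ₁, g1, g2, g3⟩ := hex
      refine ⟨χ₁, fun χ hχ hne hsq => ?_⟩
      by_contra hcon
      exact two_real h4 hqz1 hK hr hr1 hl1 (hZ _ hσΩ) (fun ψ hψ => hL0 ψ hψ _ hσΩ) χ χ₁ hsq g2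
        hne (not_le.1 hcon) g3
    · refine ⟨1, fun χ hχ _ hsq => ?_⟩
      by_contra hcon
      exact hex ⟨χ, hχ, hsq, not_le.1 hcon⟩
  refine ⟨χ₁, fun χ hχ hne s hs1 hs2 hst => ?_⟩
  -- coordinates
  obtain ⟨x, hx⟩ : ∃ x, s.re = 1 + x := ⟨s.re - 1, by ring⟩
  set t := s.im with ht
  have hx0 : 0 < x := by linarith only [hs1, hx]
  have hxc : x ≤ c / l := by linarith only [hs2, hx]
  have hcl : c / l ≤ r ^ 2 / l := by gcongr
  have hsΩ : s ∈ Om z := by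
    have : s = ⟨1 + x, t⟩ := Complex.ext hx rfl
    rw [this]
    exact hOm x t hx0 (hxc.trans (hcl.trans hrl)) (by linarith only [hz32, hst])
  by_cases hcase : χ ^ 2 = 1 ∧ |t| ≤ r ^ 2 / l
  · -- region (R)
    have h5 := hχ₁ χ hχ hne hcase.1
    have h6 := mvt z χ (hL1 χ hχ) hsΩ hσΩ
    have h7 : ‖s - (1 + ((r ^ 2 / l : ℝ) : ℂ))‖ ≤ 2 * (r ^ 2 / l) := by
      refine (Complex.norm_le_abs_re_add_abs_im _).trans ?_
      have e1 : (s - (1 + ((r ^ 2 / l : ℝ) : ℂ))).re = x - r ^ 2 / l := by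
        rw [hσ, Complex.sub_re, hx]
        change 1 + x - (1 + r ^ 2 / l) = _
        ring
      have e2 : (s - (1 + ((r ^ 2 / l : ℝ) : ℂ))).im = t := by
        rw [hσ, Complex.sub_im]
        change t - 0 = t
        ring
      rw [e1, e2]
      have e3 : |x - r ^ 2 / l| ≤ r ^ 2 / l := by
        rw [abs_le]
        constructor <;> linarith only [hs1, hx, hs2, hcl]
      linarith only [hcase, e3, hcase.2]
    have h8 : K ^ 2 * l * ‖s - (1 + ((r ^ 2 / l : ℝ) : ℂ))‖ ≤ r / (4 * K) := by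
      calc _ ≤ K ^ 2 * l * (2 * (r ^ 2 / l)) := by gcongr
        _ = r * (2 * K ^ 2 * r) := by field_simp
        _ = r / (4 * K) := by rw [hrdef]; field_simp; norm_num
    have h9 : c ≤ r / (4 * K) := by
      have e1 : c = r * (r / (256 * K ^ 12)) := by rw [hcdef]; ring
      have e2 : r / (4 * K) = r * (1 / (4 * K)) := by ring
      rw [e1, e2]
      refine mul_le_mul_of_nonneg_left ?_ hr.le
      rw [div_le_div_iff₀ (by positivity) (by positivity)]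
      have e3 : K ≤ K ^ 12 := le_self_pow₀ hK (by norm_num)
      nlinarith only [hK1, hKK1, hr1, e3]
    have h10 : r / (2 * K) = r / (4 * K) + r / (4 * K) := by field_simp; norm_num
    linarith only [h5, h6, h8, h9, h10]
  · -- region (C)
    have hcx : (0 : ℝ) < c / l := by positivity
    set s₀ : ℂ := ⟨1 + c / l, t⟩ with hs₀
    have hs₀Ω : s₀ ∈ Om z := hOm _ _ hcx (hcl.trans hrl) (by linarith only [hz32, hst])
    have h5 := h3 z q hqz1 χ (c / l) t hcx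
    have e0 : (1 + ((c / l : ℝ) : ℂ)) = ⟨1 + c / l, 0⟩ := one_add_ofReal _
    have e1 : (1 + ((c / l : ℝ) : ℂ) + Complex.I * (t : ℂ)) = s₀ := one_add_ofReal' _ _
    have e2 : (1 + ((c / l : ℝ) : ℂ) + 2 * Complex.I * (t : ℂ)) = ⟨1 + c / l, 2 * t⟩ :=
      one_add_ofReal'' _ _
    rw [e1, e2, e0] at h5
    have hA : ‖LL (ci z 1 0) 0 ⟨1 + c / l, 0⟩‖ ≤ 2 * K / c := by
      have hm : (⟨1 + c / l, 0⟩ : ℂ) ∈ Om z :=
        hOm _ _ hcx (hcl.trans hrl) (by rw [abs_zero]; positivity)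
      refine (hZ _ hm).trans ?_
      have e3 : ‖(⟨1 + c / l, 0⟩ : ℂ) - 1‖ = c / l := by
        rw [← e0, add_sub_cancel_left, Complex.norm_real, Real.norm_eq_abs, abs_of_pos hcx]
      rw [e3, mul_div_cancel₀ _ hl0.ne']
      have : 1 ≤ 1 / c := by rw [le_div_iff₀ hc, one_mul]; exact hc1
      calc K * (1 + 1 / c) ≤ K * (1 / c + 1 / c) := by
            apply mul_le_mul_of_nonneg_left _ (by linarith only [hK1, hKK1])
            linarith only [this]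
        _ = 2 * K / c := by ring
    have hm2 : (⟨1 + c / l, 2 * t⟩ : ℂ) ∈ Om z :=
      hOm _ _ hcx (hcl.trans hrl) (by rw [abs_mul, abs_two]; linarith only [hst])
    have hB : ‖LL (ch z (χ ^ 2)) 0 ⟨1 + c / l, 2 * t⟩‖ ≤ 2 * K / r ^ 2 := by
      have hr2' : 1 ≤ 1 / r ^ 2 := by rw [le_div_iff₀ (by positivity), one_mul]; exact hr2
      by_cases hsq : χ ^ 2 = 1
      · rw [hsq, ch_one hqz1]
        refine (hZ _ hm2).trans ?_
        have ht' : r ^ 2 / l < |t| := by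
          by_contra hcon
          exact hcase ⟨hsq, not_lt.1 hcon⟩
        have e3 : r ^ 2 / l ≤ ‖(⟨1 + c / l, 2 * t⟩ : ℂ) - 1‖ := by
          have h6 := Complex.abs_im_le_norm ((⟨1 + c / l, 2 * t⟩ : ℂ) - 1)
          have e4 : ((⟨1 + c / l, 2 * t⟩ : ℂ) - 1).im = 2 * t := by simp
          rw [e4, abs_mul, abs_two] at h6
          have : 0 ≤ |t| := abs_nonneg t
          linarith only [hs1, hs2, hcl, ht', h6]
        have hpos : (0 : ℝ) < r ^ 2 / l := by positivity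
        have e5 : 1 / (l * ‖(⟨1 + c / l, 2 * t⟩ : ℂ) - 1‖) ≤ 1 / r ^ 2 := by
          apply one_div_le_one_div_of_le (by positivity)
          calc r ^ 2 = l * (r ^ 2 / l) := by field_simp
            _ ≤ _ := by gcongr
        calc K * (1 + 1 / (l * ‖(⟨1 + c / l, 2 * t⟩ : ℂ) - 1‖))
            ≤ K * (1 / r ^ 2 + 1 / r ^ 2) := by
              apply mul_le_mul_of_nonneg_left _ (by linarith only [hK1, hKK1])
              linarith only [hr2', e5]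
          _ = 2 * K / r ^ 2 := by ring
      · refine (hL0 _ hsq _ hm2).trans ?_
        calc 2 * K = 2 * K * 1 := by ring
          _ ≤ 2 * K * (1 / r ^ 2) := by gcongr
          _ = 2 * K / r ^ 2 := by ring
    set X := ‖LL (ch z χ) 0 s₀‖ with hX
    have hX0 : 0 ≤ X := norm_nonneg _
    have h8 : 2 * K ^ 2 * c ≤ X :=
      algC hK0 hr hc hX0 hcdef (norm_nonneg _) (norm_nonneg _) hA hB h5
    have h9 := mvt z χ (hL1 χ hχ) hsΩ hs₀Ω
    have h10 : ‖s - s₀‖ ≤ c / l := by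
      have e3 : s - s₀ = ((x - c / l : ℝ) : ℂ) := by
        apply Complex.ext
        · rw [Complex.sub_re, hx, hs₀, Complex.ofReal_re]
          change 1 + x - (1 + c / l) = _
          ring
        · rw [Complex.sub_im, hs₀, Complex.ofReal_im]
          change t - t = 0
          ring
      rw [e3, Complex.norm_real, Real.norm_eq_abs, abs_le]
      constructor <;> linarith only [hs1, hx, hs2]
    have h11 : K ^ 2 * l * ‖s - s₀‖ ≤ K ^ 2 * c := by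
      calc _ ≤ K ^ 2 * l * (c / l) := by gcongr
        _ = K ^ 2 * c := by field_simp
    have h12 : c ≤ K ^ 2 * c := by
      have : 1 ≤ K ^ 2 := one_le_pow₀ hK
      nlinarith only [hc, this]
    linarith only [h8, h9, h11, h12]

end Pool.Agent.Helper47.CR
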