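import Pool.Agent.Helper85.CR.Goals
import Pool.Agent.Helper28.PL.Final
import Pool.Agent.Helper34.FF.Rot

/-!
# Project CR (MP_bdaf95_co), packet TRI4: the neighbours of a vertex of degree four
-/

set_option autoImplicit false

namespace Pool.Agent.Helper47.CR

open Equiv Helper28.VF Helper28.PL

section
variable {D V E F : Type} [Fintype D] [Fintype V] [Fintype E] [Fintype F] (M : PM D V E F)

theorem vt_s (d : D) : M.vt (M.σ d) = M.vt d := by
  refine ((M.vt_iff _ _).2 ?_).symm
  exact ⟨1, by simp⟩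

theorem adj_symm {u v : V} (h : Adj M u v) : Adj M v u := by
  obtain ⟨d, h1, h2⟩ := h
  exact ⟨M.α d, h2, by rw [M.α_inv]; exact h1⟩

theorem ne_of_adj (hs : Simple M) {u v : V} (h : Adj M u v) : u ≠ v := by
  obtain ⟨d, h1, h2⟩ := h
  intro h3
  exact hs.noloop d (by rw [h1, h2, h3])

theorem adj_next (ht : Triang M) (e : D) :
    Adj M (M.vt (M.α (M.σ e))) (M.vt (M.α e)) := by
  have h1 : φ M (M.α e) = M.σ e := by
    unfold φ
    rw [Perm.mul_apply, M.α_inv]
  have h2 := ht (M.α e)
  rw [h1] at h2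
  refine ⟨φ M (M.σ e), ?_, ?_⟩
  · unfold φ
    rw [Perm.mul_apply, vt_s]
  · rw [← h2]
    conv_rhs => unfold φ
    rw [Perm.mul_apply, vt_s]
    rfl

theorem sc_ind (P : D → Prop) (hP : ∀ d, P d → P (M.σ d)) {x y : D} (h : M.σ.SameCycle x y)
    (hx : P x) : P y := by
  obtain ⟨n, hn⟩ := h.exists_nat_pow_eq
  rw [← hn]
  clear hn
  induction n with
  | zero => simpa using hx
  | succ n ih =>
    rw [pow_succ', Perm.mul_apply]
    exact hP _ ih

/-- The targets of the darts next to `x a` are `b` and `d`. -/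
theorem side (hs : Simple M) (ht : Triang M) {x a b c d : V}
    (hx : ∀ y, Adj M x y ↔ y = a ∨ y = b ∨ y = c ∨ y = d) (hac : a ≠ c) (hbc : b ≠ c)
    (hcd : c ≠ d) (hn : ¬ Adj M a c) : Adj M a b ∧ Adj M a d := by
  obtain ⟨ea, ha1, ha2⟩ := (hx a).2 (Or.inl rfl)
  obtain ⟨ec, hc1, hc2⟩ := (hx c).2 (Or.inr (Or.inr (Or.inl rfl)))
  set g := M.σ.symm ea with hg
  have hsg : M.σ g = ea := by rw [hg, Equiv.apply_symm_apply]
  have hf1 : M.vt (M.σ ea) = x := by rw [vt_s]; exact ha1
  have hg1 : M.vt g = x := by rw [← vt_s M g, hsg]; exact ha1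
  have hf2 : Adj M (M.vt (M.α (M.σ ea))) a := by
    rw [← ha2]
    exact adj_next M ht ea
  have hg2 : Adj M a (M.vt (M.α g)) := by
    have := adj_next M ht g
    rw [hsg, ha2] at this
    exact this
  have hf3 := (hx (M.vt (M.α (M.σ ea)))).1 ⟨M.σ ea, hf1, rfl⟩
  have hg3 := (hx (M.vt (M.α g))).1 ⟨g, hg1, rfl⟩
  have hf4 : M.vt (M.α (M.σ ea)) = b ∨ M.vt (M.α (M.σ ea)) = d := by
    rcases hf3 with h | h | h | h
    · exact absurd h (ne_of_adj M hs hf2)
    · exact Or.inl h
    · rw [h] at hf2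
      exact absurd (adj_symm M hf2) hn
    · exact Or.inr h
  have hg4 : M.vt (M.α g) = b ∨ M.vt (M.α g) = d := by
    rcases hg3 with h | h | h | h
    · exact absurd h.symm (ne_of_adj M hs hg2)
    · exact Or.inl h
    · rw [h] at hg2
      exact absurd hg2 hn
    · exact Or.inr h
  have hne : M.vt (M.α (M.σ ea)) ≠ M.vt (M.α g) := by
    intro h
    have h1 : M.σ ea = g := hs.simple _ _ (hf1.trans hg1.symm) h
    have h2 : M.σ (M.σ ea) = ea := by rw [h1, hsg]
    have h3 : ec = ea ∨ ec = M.σ ea := by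
      refine sc_ind M (fun e ↦ e = ea ∨ e = M.σ ea) ?_
        ((M.vt_iff ea ec).1 (ha1.trans hc1.symm)) (Or.inl rfl)
      rintro e (he | he)
      · right
        rw [he]
      · left
        rw [he, h2]
    rcases h3 with h3 | h3
    · rw [h3, ha2] at hc2
      exact hac hc2
    · rw [h3] at hc2
      rcases hf4 with h4 | h4
      · exact hbc (h4.symm.trans hc2)
      · exact hcd (hc2.symm.trans h4)
  rcases hf4 with h4 | h4 <;> rcases hg4 with h5 | h5
  · exact absurd (h4.trans h5.symm) hne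
  · rw [h4] at hf2
    rw [h5] at hg2
    exact ⟨adj_symm M hf2, hg2⟩
  · rw [h4] at hf2
    rw [h5] at hg2
    exact ⟨hg2, adj_symm M hf2⟩
  · exact absurd (h4.trans h5.symm) hne

include M in
open Classical in
theorem card_E : Fintype.card D = 2 * Fintype.card E := by
  have h1 : Fintype.card D = ∑ e : E, (Finset.univ.filter fun d ↦ M.ed d = e).card := by
    rw [← Finset.card_univ]
    exact Finset.card_eq_sum_card_fiberwise fun _ _ ↦ Finset.mem_univ _
  rw [h1, Finset.sum_const_nat (m := 2), Finset.card_univ, mul_comm]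
  intro e _
  obtain ⟨d, rfl⟩ := M.ed_surj e
  have h2 : (Finset.univ.filter fun e ↦ M.ed e = M.ed d) = {d, M.α d} := by
    ext e
    rw [Finset.mem_filter, Finset.mem_insert, Finset.mem_singleton, eq_comm, M.ed_iff]
    simp
  rw [h2, Finset.card_pair (M.α_ne d).symm]

open Classical in
theorem card_F (hs : Simple M) (ht : Triang M) : Fintype.card D = 3 * Fintype.card F := by
  have h1 : Fintype.card D = ∑ f : F, (Finset.univ.filter fun d ↦ M.fc d = f).card := by
    rw [← Finset.card_univ]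
    exact Finset.card_eq_sum_card_fiberwise fun _ _ ↦ Finset.mem_univ _
  rw [h1, Finset.sum_const_nat (m := 3), Finset.card_univ, mul_comm]
  intro f _
  obtain ⟨d, rfl⟩ := M.fc_surj f
  have hne : ∀ e, φ M e ≠ e := by
    intro e he
    unfold φ at he
    rw [Perm.mul_apply] at he
    apply hs.noloop e
    rw [← vt_s, he]
  have h2 : (Finset.univ.filter fun e ↦ M.fc e = M.fc d) = {d, φ M d, φ M (φ M d)} := by
    ext e
    rw [Finset.mem_filter, Finset.mem_insert, Finset.mem_insert, Finset.mem_singleton, eq_comm,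
      M.fc_iff]
    constructor
    · rintro ⟨_, h⟩
      obtain ⟨n, hn⟩ := h.exists_nat_pow_eq
      rw [← hn]
      clear hn
      induction n with
      | zero => left; rfl
      | succ n ih =>
        rw [pow_succ', Perm.mul_apply]
        change φ M _ = d ∨ φ M _ = φ M d ∨ φ M _ = φ M (φ M d)
        rcases ih with ih | ih | ih
        · right; left
          rw [ih]
        · right; right
          rw [ih]
        · left
          rw [ih]
          exact ht d
    · intro h
      refine ⟨Finset.mem_univ _, ?_⟩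
      rcases h with h | h | h
      · rw [h]
      · rw [h]
        exact ⟨1, by simp [φ]⟩
      · rw [h]
        refine ⟨2, ?_⟩
        rw [zpow_ofNat, pow_two, Perm.mul_apply]
        rfl
  rw [h2]
  refine Finset.card_eq_three.2 ⟨d, φ M d, φ M (φ M d), (hne d).symm, ?_, (hne _).symm, rfl⟩
  intro h
  have h3 := ht d
  rw [← h] at h3
  exact hne d h3

theorem card_DV (hs : Simple M) (ht : Triang M) : Fintype.card D + 12 = 6 * Fintype.card V := by
  have h1 := card_E M
  have h2 := card_F M hs ht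
  have h3 := M.euler
  omega

end

/-- A planar graph is a subgraph of the graph of a simple triangulated map. -/
theorem exists_tri {V : Type} [Fintype V] (G : SimpleGraph V)
    (hG : Pool.Agent.Helper85.CR.Planar G) (h3 : 3 ≤ Fintype.card V) :
    ∃ (D E F : Type) (_ : Fintype D) (_ : Fintype E) (_ : Fintype F) (M : PM D V E F),
      Simple M ∧ Triang M ∧ ∀ u v, G.Adj u v → Adj M u v := by
  rcases hG with h | ⟨H, hGH, hc, σ, hσ, he⟩
  · rw [Nat.card_eq_fintype_card] at h
    omega
  · obtain ⟨D, E, F, _, _, _, M, hM, hA⟩ :=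
      Pool.Agent.Helper34.FF.Rot.planar_of_rot G H (by omega) hGH hc σ hσ he
    obtain ⟨D', E', F', i1, i2, i3, M', h1, h2, h4⟩ := stmtMax D V E F M hM h3
    exact ⟨D', E', F', i1, i2, i3, M', h1, h2, fun u v h ↦ h4 u v (hA u v h)⟩

open Classical in
/-- **TRI4.** -/
theorem gTRI4 : Pool.Agent.Helper85.CR.StmtTRI4 := by
  intro V _ G hG h3 hE x a b c d hx hab hac had hbc hbd hcd hn
  obtain ⟨D, E, F, _, _, _, M, hs, ht, hA⟩ := exists_tri G hG h3
  have hcard := card_DV M hs ht
  have hdart : Fintype.card G.Dart = Fintype.card D := by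
    rw [SimpleGraph.dart_card_eq_twice_card_edges]
    rw [Set.ncard_eq_toFinset_card'] at hE
    have : G.edgeFinset.card = G.edgeSet.toFinset.card := rfl
    omega
  -- the darts of `G` are the darts of `M`
  have hch : ∀ e : G.Dart, ∃ d : D, M.vt d = e.fst ∧ M.vt (M.α d) = e.snd :=
    fun e ↦ hA _ _ e.adj
  choose f hf1 hf2 using hch
  have hfi : Function.Injective f := by
    intro e e' h
    apply SimpleGraph.Dart.ext
    apply Prod.ext
    · rw [← hf1 e, ← hf1 e', h]
    · rw [← hf2 e, ← hf2 e', h]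
  have hfs : Function.Surjective f :=
    ((Fintype.bijective_iff_injective_and_card f).2 ⟨hfi, hdart⟩).2
  have hiff : ∀ u v, G.Adj u v ↔ Adj M u v := by
    intro u v
    refine ⟨hA u v, ?_⟩
    rintro ⟨e, h1, h2⟩
    obtain ⟨e', rfl⟩ := hfs e
    rw [hf1] at h1
    rw [hf2] at h2
    rw [← h1, ← h2]
    exact e'.adj
  have hx1 : ∀ y, Adj M x y ↔ y = a ∨ y = b ∨ y = c ∨ y = d := fun y ↦ (hiff x y).symm.trans (hx y)
  have hx2 : ∀ y, Adj M x y ↔ y = c ∨ y = b ∨ y = a ∨ y = d := by
    intro y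
    rw [hx1]
    tauto
  rw [hiff] at hn
  obtain ⟨h1, h2⟩ := side M hs ht hx1 hac hbc hcd hn
  obtain ⟨h4, h5⟩ := side M hs ht hx2 hac.symm hab.symm had (fun h ↦ hn (adj_symm M h))
  simp only [hiff]
  exact ⟨h1, adj_symm M h4, h5, adj_symm M h2⟩

end Pool.Agent.Helper47.CR
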